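import Pool.Agent.Lib_helper28.Chrom.Stmt

/-!
# The alpha-move in the class STAR (section 2.1 of note 1214)
-/

open Finset

namespace Pool.Agent.Chrom

set_option linter.unusedSectionVars false

section

variable {V : Type*} [Fintype V] [DecidableEq V]
variable {A : Finset V → Prop} {T f g X C : Finset V}

/-- the product structure at an uncrossed tight face without bad spread nonfaces -/
theorem starMove_splits_of_red (h : NC A) (hT : Tight A T) (hun : ¬ Crossed A T)
    (hred : ∀ f, MinNF A f → 2 ≤ (meetComps (gr A) T f).card →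
      ∃ C ∈ comps (gr A) T, ¬ A (T ∪ (f ∩ C))) : Splits A T (comps (gr A) T) where
  disj := fun C hC C' hC' hne => comps_disjoint hC hC' hne
  disjD := fun C hC => comps_disjoint_S hC
  cover := fun v hv => exists_comps hv
  out := by
    intro S hS hd
    constructor
    · intro hA C _ _
      exact h.down _ _ inter_subset_left hA
    · intro hall
      by_contra hA
      obtain ⟨f, hfS, hf⟩ := exists_minNF hA
      have hfd : Disjoint T f := (hd.mono_left hfS).symm
      have hle : (meetComps (gr A) T f).card ≤ 1 := by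
        by_contra hlt
        have h2 := h.two_le_card hf
        by_cases h3 : 3 ≤ f.card
        · exact hun ⟨f, hf, h3, hfd, by omega⟩
        · obtain ⟨u, v, rfl, huv⟩ := NC.pair_of_card_two hf (by omega)
          refine hlt (meet_le_of_reachable ?_)
          have hu : u ∉ T := Finset.disjoint_right.1 hfd (by simp)
          have hv : v ∉ T := Finset.disjoint_right.1 hfd (by simp)
          have hr : (del (gr A) T).Reachable u v := SimpleGraph.Adj.reachable ⟨huv, hu, hv⟩
          intro p hp q hq
          rw [mem_insert, mem_singleton] at hp hq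
          rcases hp with rfl | rfl <;> rcases hq with rfl | rfl
          · exact SimpleGraph.Reachable.refl _
          · exact hr
          · exact hr.symm
          · exact SimpleGraph.Reachable.refl _
      obtain ⟨x, hx⟩ := card_pos.1 (show 0 < f.card by have := h.two_le_card hf; omega)
      obtain ⟨C, hC, hxC⟩ := exists_comps (G := gr A) (Finset.disjoint_right.1 hfd hx)
      have hfC : f ⊆ C := by
        intro z hz
        rw [← comp_eq_of_mem_comps hC hxC, mem_comp]
        exact reachable_of_meet_le hfd hle hx hz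
      have hsub : f ⊆ S ∩ C := subset_inter hfS hfC
      exact hf.1 (h.down _ _ hsub (hall C hC (⟨x, hsub hx⟩)))
  inn := by
    intro S hTS
    constructor
    · intro hA C _
      exact h.down _ _ (union_subset hTS inter_subset_left) hA
    · intro hall
      by_contra hA
      obtain ⟨f, hfS, hf⟩ := exists_minNF hA
      by_cases hsp : 2 ≤ (meetComps (gr A) T f).card
      · obtain ⟨C, hC, hno⟩ := hred f hf hsp
        refine hno (h.down _ _ ?_ (hall C hC))
        exact union_subset_union (Subset.refl T) (inter_subset_inter hfS (Subset.refl C))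
      · by_cases hfT : f ⊆ T
        · exact hf.1 (h.down _ _ hfT hT.face)
        · obtain ⟨x, hx, hxT⟩ := Finset.not_subset.1 hfT
          obtain ⟨C, hC, hxC⟩ := exists_comps (G := gr A) hxT
          have hsub : f ⊆ T ∪ (S ∩ C) := by
            intro z hz
            by_cases hzT : z ∈ T
            · exact mem_union_left _ hzT
            · refine mem_union_right _ (mem_inter.2 ⟨hfS hz, ?_⟩)
              obtain ⟨D, hD, hzD⟩ := exists_comps (G := gr A) hzT
              have h1 : C ∈ meetComps (gr A) T f := mem_meetComps.2 ⟨hC, by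
                rw [Finset.not_disjoint_iff]; exact ⟨x, hxC, hx⟩⟩
              have h2 : D ∈ meetComps (gr A) T f := mem_meetComps.2 ⟨hD, by
                rw [Finset.not_disjoint_iff]; exact ⟨z, hzD, hz⟩⟩
              have h4 := card_le_one.1 (show (meetComps (gr A) T f).card ≤ 1 by omega) C h1 D h2
              rw [h4]; exact hzD
          exact hf.1 (h.down _ _ hsub (hall C hC))

/-- no bad spread nonface at a minimal tight face in STAR -/
theorem starMove_red (h : NC A) (hs : Star A) (hT : Tight A T) (hun : ¬ Crossed A T)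
    (hf : MinNF A f) (hsp : 2 ≤ (meetComps (gr A) T f).card) :
    ∃ C ∈ comps (gr A) T, ¬ A (T ∪ (f ∩ C)) := by
  by_contra hno
  push Not at hno
  have hmeet : ∀ C ∈ meetComps (gr A) T f, (f ∩ C).Nonempty := by
    intro C hC
    obtain ⟨_, hC2⟩ := mem_meetComps.1 hC
    rw [Finset.not_disjoint_iff] at hC2
    obtain ⟨v, hv, hv'⟩ := hC2
    exact ⟨v, mem_inter.2 ⟨hv', hv⟩⟩
  obtain ⟨C, hC, C', hC', hCC⟩ := one_lt_card.1 (show 1 < (meetComps (gr A) T f).card by omega)
  have hC1 := (mem_meetComps.1 hC).1
  have hC1' := (mem_meetComps.1 hC').1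
  obtain ⟨x, hx⟩ := hmeet C hC
  obtain ⟨y, hy⟩ := hmeet C' hC'
  rw [mem_inter] at hx hy
  have hxy : x ≠ y := by
    rintro rfl
    exact hCC (comps_eq_of_mem hC1 hC1' hx.2 hy.2)
  have hxT : x ∉ T := Finset.disjoint_left.1 (comps_disjoint_S hC1) hx.2
  have hyT : y ∉ T := Finset.disjoint_left.1 (comps_disjoint_S hC1') hy.2
  have hyC : y ∉ C := fun hh => hCC (comps_eq_of_mem hC1 hC1' hh hy.2)
  -- `f` has at least three elements
  have h3 : 3 ≤ f.card := by
    have h2 := h.two_le_card hf
    by_contra hlt
    obtain ⟨u, v, rfl, huv⟩ := NC.pair_of_card_two hf (by omega)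
    have hsub : ∀ z ∈ ({u, v} : Finset V), z = x ∨ z = y := by
      have h4 : ({x, y} : Finset V) = {u, v} := by
        refine Finset.eq_of_subset_of_card_le (pair_subset_iff.2 ⟨hx.1, hy.1⟩) ?_
        rw [card_pair hxy]; exact card_le_two
      intro z hz
      rw [← h4] at hz
      simpa using hz
    have hadj : (gr A).Adj x y := by
      rcases hsub u (by simp) with rfl | rfl <;> rcases hsub v (by simp) with rfl | rfl
      · exact absurd huv ((gr A).loopless.irrefl _)
      · exact huv
      · exact huv.symm
      · exact absurd huv ((gr A).loopless.irrefl _)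
    exact hyC (comps_closed hC1 hx.2 hadj hyT)
  -- `f` meets `T`
  have hint : (T ∩ f).Nonempty := by
    by_contra hemp
    rw [Finset.not_nonempty_iff_eq_empty, ← disjoint_iff_inter_eq_empty] at hemp
    exact hun ⟨f, hf, h3, hemp, hsp⟩
  have hnsub : ¬ f ⊆ T := fun hs => hxT (hs hx.1)
  have hadj : ∀ u ∈ T, ∀ v ∈ f \ T, ¬ (gr A).Adj u v := by
    intro u hu v hv
    rw [mem_sdiff] at hv
    obtain ⟨D, hD, hvD⟩ := exists_comps (G := gr A) (S := T) hv.2
    exact h.not_adj (hno D hD) (mem_union_left _ hu)
      (mem_union_right _ (mem_inter.2 ⟨hv.1, hvD⟩))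
  have hsm := cc_supermodular (G := gr A) (S := T) (T := f)
    (fun u hu v hv => hadj u (mem_sdiff.1 hu).1 v hv)
  have hTf : cc (gr A) (T ∩ f) ≤ 0 := by
    refine h.cc_ssubset hf _ ?_ hint
    rw [Finset.ssubset_iff_subset_ne]
    refine ⟨inter_subset_right, fun heq => hnsub ?_⟩
    rw [← heq]; exact inter_subset_left
  have hf0 := h.nonface f hf h3
  have hT0 := hT.zero
  -- additivity
  have hdX : Disjoint T (f \ T) := Finset.disjoint_sdiff
  have e1 : T ∪ f = T ∪ (f \ T) := by
    ext z; simp only [mem_union, mem_sdiff]; tauto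
  have hpart : ∀ D ∈ comps (gr A) T, (f \ T) ∩ D = f ∩ D := by
    intro D hD
    ext z
    simp only [mem_inter, mem_sdiff]
    constructor
    · rintro ⟨⟨h1, _⟩, h2⟩; exact ⟨h1, h2⟩
    · rintro ⟨h1, h2⟩
      exact ⟨⟨h1, Finset.disjoint_left.1 (comps_disjoint_S hD) h2⟩, h2⟩
  have hadd := cc_union_eq_of_tight hdX hT.zero
  rw [← e1] at hadd
  have hterm : ∀ D ∈ comps (gr A) T, cc (gr A) (T ∪ (f \ T) ∩ D) ≤ 0 := by
    intro D hD
    rw [hpart D hD]
    refine h.face _ (hno D hD) ?_
    exact (card_pos.1 (by have := hT.two; omega)).mono subset_union_left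
  have hsum := sum_nonpos hterm
  have hzero := (sum_eq_zero_iff_of_nonpos hterm).1 (by linarith)
  have hf00 : cc (gr A) f = 0 := by linarith
  -- the set `f - C`
  have hss : f \ C ⊂ f := by
    rw [Finset.ssubset_iff_subset_ne]
    refine ⟨sdiff_subset, fun heq => ?_⟩
    have : x ∈ f \ C := by rw [heq]; exact hx.1
    exact (mem_sdiff.1 this).2 hx.2
  obtain ⟨t, ht⟩ := hint
  rw [mem_inter] at ht
  have htC : t ∉ C := fun hh => Finset.disjoint_left.1 (comps_disjoint_S hC1) hh ht.1
  have h2 : 2 ≤ (f \ C).card := by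
    have hty : t ≠ y := fun he => hyT (he ▸ ht.1)
    rw [← card_pair hty]
    exact card_le_card (pair_subset_iff.2 ⟨mem_sdiff.2 ⟨ht.2, htC⟩, mem_sdiff.2 ⟨hy.1, hyC⟩⟩)
  have hneg := hs f hf h3 hf00 _ hss h2
  -- supermodularity for `T ∪ (f - C)` and `f`
  have hsm2 := cc_supermodular (G := gr A) (S := T ∪ (f \ C)) (T := f) (by
    intro u hu v hv
    simp only [mem_sdiff, mem_union] at hu hv
    have hu' : u ∈ T := by tauto
    refine hadj u hu' v (mem_sdiff.2 ⟨hv.1, fun hh => hv.2 (Or.inl hh)⟩))
  have e2 : T ∪ (f \ C) ∪ f = T ∪ f := by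
    ext z; simp only [mem_union, mem_sdiff]; tauto
  have e3 : (T ∪ (f \ C)) ∩ f = f \ C := by
    ext z
    simp only [mem_union, mem_sdiff, mem_inter]
    constructor
    · rintro ⟨h1 | h1, h2⟩
      · exact ⟨h2, fun hh => Finset.disjoint_left.1 (comps_disjoint_S hC1) hh h1⟩
      · exact h1
    · intro h1
      exact ⟨Or.inr h1, h1.1⟩
  rw [e2, e3] at hsm2
  -- additivity for `T ∪ (f - C)`
  have e4 : T ∪ (f \ C) = T ∪ ((f \ C) \ T) := by
    ext z; simp only [mem_union, mem_sdiff]; tauto
  have hadd2 := cc_union_eq_of_tight (G := gr A) (D := T) (X := (f \ C) \ T)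
    Finset.disjoint_sdiff hT.zero
  rw [← e4] at hadd2
  have hzero2 : ∑ D ∈ comps (gr A) T, cc (gr A) (T ∪ ((f \ C) \ T) ∩ D) = 0 := by
    refine sum_eq_zero fun D hD => ?_
    by_cases hDC : D = C
    · subst hDC
      have : ((f \ D) \ T) ∩ D = ∅ := by
        ext z; simp only [mem_sdiff, mem_inter, notMem_empty, iff_false]; tauto
      rw [this, union_empty]
      exact hT.zero
    · have : ((f \ C) \ T) ∩ D = (f \ T) ∩ D := by
        ext z
        simp only [mem_sdiff, mem_inter]
        constructor
        · rintro ⟨⟨⟨h1, _⟩, h2⟩, h3⟩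
          exact ⟨⟨h1, h2⟩, h3⟩
        · rintro ⟨⟨h1, h2⟩, h3⟩
          exact ⟨⟨⟨h1, Finset.disjoint_left.1 (comps_disjoint hD hC1 hDC) h3⟩, h2⟩, h3⟩
      rw [this]
      exact hzero D hD
  linarith

theorem starMove_avoid (h : NC A) (hs : Star A) (hT : Tight A T) (hm : MinT (gr A) T)
    (hun : ¬ Crossed A T) : Star (avoid A T) := by
  intro f hf h3 h0 X hX h2
  have hle := cc_anti_graph (G := gr A) (G' := gr (avoid A T)) (gr_mono fun S hS => hS.1) X
  rcases minNF_avoid hf with rfl | ⟨hf', _⟩
  · exact lt_of_le_of_lt hle (hm X hX h2)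
  · refine lt_of_le_of_lt hle (hs f hf' h3 ?_ X hX h2)
    unfold cc kk at h0 ⊢
    rw [comps_avoid h hT hun hf' h3] at h0
    exact h0

theorem starMove_piece (h : NC A) (hs : Star A) (hT : Tight A T)
    (hun : ¬ Crossed A T) (hC : C ∈ comps (gr A) T) : Star (piece A T C) := by
  have hTne : T.Nonempty := card_pos.1 (by have := hT.two; omega)
  have hsub' : ∀ P Q : Finset (Option {v // v ∈ C}), Q ⊆ P → (none ∈ P → none ∈ Q) →
      Q ≠ P → some' Q ⊂ some' P := by
    intro P Q hQP hn hne
    rw [Finset.ssubset_iff_subset_ne]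
    refine ⟨some'_mono hQP, fun he => hne (Subset.antisymm hQP ?_)⟩
    rintro (_ | v) hv
    · exact hn hv
    · have h1 : v.1 ∈ some' P := mem_some'.2 ⟨v.2, hv⟩
      rw [← he, mem_some'] at h1
      exact h1.2
  intro P hP h3 h0 Q hQ h2
  by_cases hn : none ∈ P
  · -- the nonface contains the contracted vertex
    obtain ⟨f, hf, hfs, hsub, hint, hf3⟩ := exists_lift hT.face h hP hn h3
    obtain ⟨h1, h1', h4⟩ := minNF_piece_in hP hn
    rw [cc_piece_none h hT hC hn] at h0
    have hTf : T ∪ f = T ∪ some' P := by
      refine Subset.antisymm (union_subset subset_union_left hfs) ?_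
      exact union_subset_union (Subset.refl _) hsub
    have hcard := card_some'_none hn
    have hadj : ∀ u ∈ T, ∀ v ∈ some' P, ¬ (gr A).Adj u v := by
      intro u hu v hv
      have hss : ({v} : Finset V) ⊂ some' P := by
        rw [Finset.ssubset_iff_subset_ne]
        refine ⟨singleton_subset_iff.2 hv, fun he => ?_⟩
        rw [← he, card_singleton] at hcard
        omega
      exact h.not_adj (h4 _ hss) (mem_union_left _ hu) (mem_union_right _ (mem_singleton_self v))
    have hfT : ∀ v, v ∈ f → v ∉ T → v ∈ some' P := by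
      intro v hv hvT
      rcases mem_union.1 (hfs hv) with h' | h'
      · exact absurd h' hvT
      · exact h'
    have hdisj : ∀ v, v ∈ some' P → v ∉ T := fun v hv =>
      Finset.disjoint_left.1 (comps_disjoint_S hC) (some'_subset hv)
    have hf0 := h.nonface f hf hf3
    have hT0 := hT.zero
    have hsm := cc_supermodular (G := gr A) (S := T) (T := f) (by
      intro u hu v hv
      rw [mem_sdiff] at hu hv
      exact hadj u hu.1 v (hfT v hv.1 hv.2))
    have hTfle : cc (gr A) (T ∩ f) ≤ 0 := by
      refine h.cc_ssubset hf _ ?_ hint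
      rw [Finset.ssubset_iff_subset_ne]
      refine ⟨inter_subset_right, fun heq => ?_⟩
      have : f ⊆ T := by rw [← heq]; exact inter_subset_left
      exact hf.1 (h.down _ _ this hT.face)
    rw [hTf] at hsm
    have hf00 : cc (gr A) f = 0 := by linarith
    obtain ⟨t, ht⟩ := id hint
    rw [mem_inter] at ht
    by_cases hn' : none ∈ Q
    · rw [cc_piece_none h hT hC hn']
      have hQP := hsub' P Q hQ.subset (fun _ => hn') hQ.ne
      have hcQ := card_some'_none hn'
      obtain ⟨q, hq⟩ := card_pos.1 (show 0 < (some' Q).card by omega)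
      have hqP := hQP.subset hq
      have hsm2 := cc_supermodular (G := gr A) (S := T ∪ some' Q) (T := f) (by
        intro u hu v hv
        simp only [mem_sdiff, mem_union] at hu hv
        have hu' : u ∈ T := by
          rcases hu.1 with h' | h'
          · exact h'
          · exact absurd (hsub (hQP.subset h')) hu.2
        exact hadj u hu' v (hfT v hv.1 fun hh => hv.2 (Or.inl hh)))
      have e2 : T ∪ some' Q ∪ f = T ∪ some' P := by
        rw [← hTf]
        ext z
        simp only [mem_union]
        constructor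
        · rintro ((h' | h') | h')
          · exact Or.inl h'
          · exact Or.inr (hsub (hQP.subset h'))
          · exact Or.inr h'
        · rintro (h' | h')
          · exact Or.inl (Or.inl h')
          · exact Or.inr h'
      rw [e2] at hsm2
      have hss : (T ∪ some' Q) ∩ f ⊂ f := by
        rw [Finset.ssubset_iff_subset_ne]
        refine ⟨inter_subset_right, fun heq => ?_⟩
        obtain ⟨z, hz, hzQ⟩ := Finset.exists_of_ssubset hQP
        have hzf : z ∈ (T ∪ some' Q) ∩ f := by rw [heq]; exact hsub hz
        rcases mem_union.1 (mem_inter.1 hzf).1 with h' | h'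
        · exact hdisj z hz h'
        · exact hzQ h'
      have hc2 : 2 ≤ ((T ∪ some' Q) ∩ f).card := by
        have htq : t ≠ q := fun he => hdisj q hqP (he ▸ ht.1)
        rw [← card_pair htq]
        refine card_le_card (pair_subset_iff.2 ⟨?_, ?_⟩)
        · exact mem_inter.2 ⟨mem_union_left _ ht.1, ht.2⟩
        · exact mem_inter.2 ⟨mem_union_right _ hq, hsub hqP⟩
      have hneg := hs f hf hf3 hf00 _ hss hc2
      linarith
    · have hle := cc_piece_le h hTne hC hn'
      refine lt_of_le_of_lt hle (hs f hf hf3 hf00 _ ?_ ?_)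
      · rw [Finset.ssubset_iff_subset_ne]
        refine ⟨(some'_mono hQ.subset).trans hsub, fun heq => ?_⟩
        have : t ∈ some' Q := by rw [heq]; exact ht.2
        exact hdisj t (some'_mono hQ.subset this) ht.1
      · rw [card_some' hn']; exact h2
  · have hn' : none ∉ Q := fun hh => hn (hQ.subset hh)
    have hS := minNF_piece_out hP hn
    have hS3 : 3 ≤ (some' P).card := by rw [card_some' hn]; exact h3
    have h00 : cc (gr A) (some' P) = 0 := by
      unfold cc at h0 ⊢
      rw [kk_piece_minNF h hT hun hC hP hn h3, ← card_some' hn] at h0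
      exact h0
    have hle := cc_piece_le h hTne hC hn'
    refine lt_of_le_of_lt hle (hs _ hS hS3 h00 _ ?_ ?_)
    · exact hsub' P Q hQ.subset (fun hh => absurd hh hn) hQ.ne
    · rw [card_some' hn']; exact h2

end

theorem stmtStarSplits : StmtStarSplits := by
  intro V _ _ A T h hs hT _ hun
  exact starMove_splits_of_red h hT hun fun f hf hsp => starMove_red h hs hT hun hf hsp

theorem stmtStarAvoid : StmtStarAvoid := by
  intro V _ _ A T h hs hT hm hun
  exact starMove_avoid h hs hT hm hun

theorem stmtStarPiece : StmtStarPiece := by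
  intro V _ _ A T h hs hT _ hun C hC
  exact starMove_piece h hs hT hun hC

end Pool.Agent.Chrom
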